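import Pool.Agent.Q33.QR.Small

/-!
# Lucas sequences `U_{(p-1)/4}(b,-1)`, `V_{(p-1)/4}(b,-1)` modulo `p` when `b ≡ 2 mod 4`
-/

set_option autoImplicit false

namespace Pool.Agent.Results.MP_f2f5f5_nt.LucasTwoModFour

open Pool.Agent.Q33.QR

/-- the Lucas sequence `U_n(b,c)` -/
def U (b c : ℤ) : ℕ → ℤ
  | 0 => 0
  | 1 => 1
  | n + 2 => b * U b c (n + 1) - c * U b c n

/-- the Lucas sequence `V_n(b,c)` -/
def V (b c : ℤ) : ℕ → ℤ
  | 0 => 2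
  | 1 => b
  | n + 2 => b * V b c (n + 1) - c * V b c n

/-- `m` is nonzero and its odd part `m0` (where `m = 2 ^ k * m0`, `m0` odd) is `1` modulo `4` -/
def OddPartOne (m : ℤ) : Prop := ∃ (k : ℕ) (m0 : ℤ), m = 2 ^ k * m0 ∧ m0 % 4 = 1

theorem result (p : ℕ) [Fact p.Prime] (hp4 : p % 4 = 1) (b : ℤ) (hb : b % 4 = 2)
    (hbp : (p : ℤ) ≠ b ^ 2 / 4 + 1) (c d x y : ℤ) (hcd : c ^ 2 + d ^ 2 = (p : ℤ))
    (hxy : x ^ 2 + (1 + b ^ 2 / 4) * y ^ 2 = (p : ℤ)) (hc : c % 4 = 1)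
    (hx : OddPartOne x) (hy : OddPartOne y) :
    (y % 4 = 2 →
      (U b (-1) ((p - 1) / 4) : ZMod p) =
        (-1) ^ ((b - 2) / 4 + d / 4) * ((y : ZMod p) / x) ∧
      (V b (-1) ((p - 1) / 4) : ZMod p) = 0) ∧
    (4 ∣ y →
      (U b (-1) ((p - 1) / 4) : ZMod p) = 0 ∧
      (V b (-1) ((p - 1) / 4) : ZMod p) = 2 * (-1) ^ (d / 4 + y / 4)) := by
  obtain ⟨h, rfl⟩ : ∃ h, b = 4 * h + 2 := ⟨b / 4, by omega⟩
  obtain ⟨c1, rfl⟩ : ∃ c1, c = 4 * c1 + 1 := ⟨c / 4, by omega⟩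
  have hq : (4 * h + 2) ^ 2 / 4 = (2 * h + 1) ^ 2 := by
    have : (4 * h + 2) ^ 2 = 4 * ((2 * h + 1) ^ 2) := by ring
    rw [this]
    omega
  have hb8 : (4 * h + 2 - 2) / 4 = h := by omega
  rw [hq] at hxy
  rw [hb8]
  have hU0 : U (4 * h + 2) (-1) 0 = 0 := rfl
  have hU1 : U (4 * h + 2) (-1) 1 = 1 := rfl
  have hU : ∀ n, U (4 * h + 2) (-1) (n + 2) = (4 * h + 2) * U (4 * h + 2) (-1) (n + 1) +
      U (4 * h + 2) (-1) n := by
    intro n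
    rw [U]
    ring
  have hV0 : V (4 * h + 2) (-1) 0 = 2 := rfl
  have hV1 : V (4 * h + 2) (-1) 1 = 4 * h + 2 := rfl
  have hV : ∀ n, V (4 * h + 2) (-1) (n + 2) = (4 * h + 2) * V (4 * h + 2) (-1) (n + 1) +
      V (4 * h + 2) (-1) n := by
    intro n
    rw [V]
    ring
  have hx0 : x ≠ 0 := npart_ne hx
  have hy0 : y ≠ 0 := npart_ne hy
  have hpd : (4 * c1 + 1) ^ 2 + d ^ 2 = x ^ 2 + (1 + (2 * h + 1) ^ 2) * y ^ 2 := by
    rw [hcd, hxy]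
  have mk' : ∀ (δ x y n v Y l : ℤ), d = 2 * δ → (4 * c1 + 1) ^ 2 + d ^ 2 = (p : ℤ) →
      x ^ 2 + (1 + (2 * h + 1) ^ 2) * y ^ 2 = (p : ℤ) → x ≠ 0 → y ≠ 0 → (l = 1 ∨ l = 2) →
      l * n = 4 * c1 + 1 + x → l * v = 2 * δ - (2 * h + 1) * y → l * Y = 1 * y →
      Data p c1 δ x y (2 * h + 1) 1 (4 * h + 2) n v Y l (U (4 * h + 2) (-1))
        (V (4 * h + 2) (-1)) := by
    intro δ x y n v Y l h1 h2 h3 h4 h5 h6 h7 h8 h9
    refine ⟨?_, ?_, h4, h5, Or.inl rfl, h6, by ring, h7, h8, h9, hU0, hU1, hU, hV0, hV1, hV⟩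
    · rw [← h2, h1]
    · rw [← h3]
      ring
  -- `4 ∣ d` as soon as `x` is odd and `y` is even
  have hd4 : ∀ x1 y1 : ℤ, x = 4 * x1 + 1 → y = 2 * y1 → ∃ d1, d = 4 * d1 := by
    intro x1 y1 hx1 hy1
    rw [hx1, hy1] at hpd
    have h1 : d ^ 2 = 8 * (2 * x1 ^ 2 + x1 - 2 * c1 ^ 2 - c1 + (2 * h ^ 2 + 2 * h + 1) * y1 ^ 2) := by
      linarith
    obtain ⟨z, hz⟩ : ∃ z, z = 2 * x1 ^ 2 + x1 - 2 * c1 ^ 2 - c1 +
      (2 * h ^ 2 + 2 * h + 1) * y1 ^ 2 := ⟨_, rfl⟩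
    rw [← hz] at h1
    have h2 : Even (d ^ 2) := ⟨4 * z, by rw [h1]; ring⟩
    obtain ⟨u, hu⟩ := (Int.even_pow' (by norm_num)).1 h2
    have h3 : u ^ 2 = 2 * z := by
      rw [hu] at h1
      nlinarith
    have h4 : Even (u ^ 2) := ⟨z, by rw [h3]; ring⟩
    obtain ⟨u1, hu1⟩ := (Int.even_pow' (by norm_num)).1 h4
    exact ⟨u1, by rw [hu, hu1]; ring⟩
  rcases npart_cases hx with ⟨x1, rfl⟩ | ⟨ξ1, rfl⟩ | ⟨kx, wx, hxw⟩
  · -- `x` odd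
    rcases npart_cases hy with ⟨w, rfl⟩ | ⟨w, rfl⟩ | ⟨ky, w, hyw⟩
    · -- `y` odd is impossible
      refine ⟨fun h4 => by omega, fun h4 => by omega⟩
    · -- `2 ∥ y`
      obtain ⟨d1, rfl⟩ := hd4 x1 (4 * w + 1) rfl rfl
      have e4 : 4 * d1 = 2 * (2 * d1) := by ring
      have hN : Even ((p - 1) / 4) := by
        rw [e4] at hcd
        exact par_even hcd
      have D := mk' (2 * d1) (4 * x1 + 1) (2 * (4 * w + 1)) (2 * (c1 + x1) + 1)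
        (2 * d1 - (2 * h + 1) * (4 * w + 1)) (4 * w + 1) 2 e4 hcd hxy hx0 hy0
        (Or.inr rfl) (by ring) (by ring) (by ring)
      have hpN := data_norm p D
      have hE := case_C2 p (prime_of_norm (Fact.out) hpN) hpN (x1 := x1) (h := h)
        (w := w) (data_pY p D) (by linear_combination hpd)
      obtain ⟨h1, h2⟩ := final_eo p D hN hE
      refine ⟨fun _ => ⟨?_, h1⟩, fun h4 => by omega⟩
      rw [h2]
      have e1 : 4 * d1 / 4 = d1 := by omega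
      rw [e1, Int.cast_one, one_mul]
    · -- `4 ∣ y`
      obtain ⟨y1, hy1⟩ : ∃ y1 : ℤ, y1 = 2 ^ ky * (4 * w + 1) := ⟨_, rfl⟩
      rw [← hy1] at hyw
      subst hyw
      obtain ⟨d1, rfl⟩ := hd4 x1 (2 * y1) rfl (by ring)
      have e4 : 4 * d1 = 2 * (2 * d1) := by ring
      have hN : Even ((p - 1) / 4) := by
        rw [e4] at hcd
        exact par_even hcd
      have D := mk' (2 * d1) (4 * x1 + 1) (4 * y1) (2 * (c1 + x1) + 1)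
        (2 * (d1 - (2 * h + 1) * y1)) (2 * y1) 2 e4 hcd hxy hx0 hy0 (Or.inr rfl)
        (by ring) (by ring) (by ring)
      have hpN := data_norm p D
      have hE := case_B p (prime_of_norm (Fact.out) hpN) hpN (x1 := x1) (y1 := y1)
        (B := 2 * h + 1) (w := w) (s := ky + 1) (by omega) (by rw [hy1]; ring)
        (data_pY p D) (by linear_combination hpd)
      obtain ⟨h1, h2⟩ := final_ee p D hN hE
      refine ⟨fun h4 => by omega, fun _ => ⟨h2, ?_⟩⟩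
      rw [h1]
      have e1 : 4 * d1 / 4 = d1 := by omega
      have e2 : 4 * y1 / 4 = y1 := by omega
      rw [e1, e2]
  · exfalso
    have h1 : (p : ℤ) = 2 * (2 * (4 * ξ1 + 1) ^ 2 + (2 * h ^ 2 + 2 * h + 1) * y ^ 2) := by
      rw [← hxy]
      ring
    omega
  · exfalso
    have h1 : (p : ℤ) = 2 * (8 * (2 ^ kx * (4 * wx + 1)) ^ 2 + (2 * h ^ 2 + 2 * h + 1) * y ^ 2) := by
      rw [← hxy, hxw]
      ring
    omega

end Pool.Agent.Results.MP_f2f5f5_nt.LucasTwoModFour
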